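import Mathlib

/-!
Kimura finiteness in symmetric monoidal categories: definitions and the list of statements
of project KF (problem MP_6e5bed_ag).
-/

open CategoryTheory MonoidalCategory

namespace Pool.Agent.W544.KF

universe w v u

section defs

variable {D : Type u} [Category.{v} D] [MonoidalCategory D]

/-- the tensor power `M^{⊗ (n+1)} = M ⊗ (M ⊗ ( ... ))` -/
def pw (M : D) : ℕ → D
  | 0 => M
  | n + 1 => M ⊗ pw M n

/-- `f ⊗ f ⊗ ... ⊗ f` (`n+1` factors) -/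
def pm {M : D} (f : M ⟶ M) : ∀ n, pw M n ⟶ pw M n
  | 0 => f
  | n + 1 => f ⊗ₘ pm f n

variable [SymmetricCategory D]

/-- the transposition of the first two factors of `M^{⊗ (n+2)}` -/
def sw (M : D) : ∀ n, pw M (n + 1) ⟶ pw M (n + 1)
  | 0 => (β_ M M).hom
  | n + 1 => (α_ M M (pw M n)).inv ≫ (β_ M M).hom ▷ pw M n ≫ (α_ M M (pw M n)).hom

variable (F : Type w) [Field F] [Preadditive D] [Linear F D]

/-- `sy F (-1) M n` is the antisymmetrizer, `sy F 1 M n` the symmetrizer of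
`M^{⊗ (n+1)}` (idempotents), given by the recursion
`(n+2) a_{n+1} = 1 ⊗ a_n + s (n+1) (1 ⊗ a_n) (transposition) (1 ⊗ a_n)`. -/
def sy (s : F) (M : D) : ∀ n, pw M n ⟶ pw M n
  | 0 => 𝟙 _
  | n + 1 => ((n : F) + 2)⁻¹ • ((M ◁ sy s M n) +
      (s * ((n : F) + 1)) • (M ◁ sy s M n ≫ sw M n ≫ M ◁ sy s M n))

/-- `Λ^{a+1}` of the image of the idempotent `p` vanishes -/
def IsEven {M : D} (p : M ⟶ M) (a : ℕ) : Prop := pm p a ≫ sy F (-1) M a = 0

/-- `Sym^{b+1}` of the image of the idempotent `q` vanishes -/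
def IsOdd {M : D} (q : M ⟶ M) (b : ℕ) : Prop := pm q b ≫ sy F 1 M b = 0

/-- partial trace over `X` with dual `Y` -/
def ptr {A B : D} (X Y : D) [ExactPairing X Y] (f : A ⊗ X ⟶ B ⊗ X) : A ⟶ B :=
  𝟙 A ⊗≫ A ◁ (η_ X Y) ⊗≫ f ▷ Y ⊗≫ B ◁ ((β_ X Y).hom ≫ ε_ X Y) ⊗≫ 𝟙 B

/-- trace of an endomorphism, in `End (𝟙_ D)` -/
def TT (X Y : D) [ExactPairing X Y] (f : X ⟶ X) : 𝟙_ D ⟶ 𝟙_ D :=
  η_ X Y ≫ f ▷ Y ≫ (β_ X Y).hom ≫ ε_ X Y

/-- the dual of `pw M n` -/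
def pd (M' : D) : ℕ → D
  | 0 => M'
  | n + 1 => pd M' n ⊗ M'

@[implicit_reducible]
def pex (M M' : D) [ExactPairing M M'] : ∀ n, ExactPairing (pw M n) (pd M' n)
  | 0 => (inferInstance : ExactPairing M M')
  | n + 1 =>
    letI := pex M M' n
    (ExactPairing.tensor : ExactPairing (M ⊗ pw M n) (pd M' n ⊗ M'))

/-- `L g n`: partial trace of `g^{⊗(n+1)} a_n` over the last `n` factors -/
def LL (s : F) {M M' : D} [ExactPairing M M'] (g : M ⟶ M) : ℕ → (M ⟶ M)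
  | 0 => g
  | n + 1 =>
    letI := pex M M' n
    ptr (A := M) (B := M) (pw M n) (pd M' n) (pm g (n + 1) ≫ sy F s M (n + 1))

end defs

end Pool.Agent.W544.KF
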