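import Pool.Agent.W544.KF.Defs

/-! Statements (as Props) of the parts of project KF. -/

open CategoryTheory MonoidalCategory

namespace Pool.Agent.W544.KF

universe w v u

/-! ### partial traces -/

def S_basic : Prop := ∀ (D : Type u) [Category.{v} D] [MonoidalCategory D] [SymmetricCategory D]
  [Preadditive D] [MonoidalPreadditive D] (X Y : D) [ExactPairing X Y],
  (∀ (A B : D) (f g : A ⊗ X ⟶ B ⊗ X), ptr X Y (f + g) = ptr X Y f + ptr X Y g) ∧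
  (∀ (A A' B : D) (f : A' ⟶ A) (g : A ⊗ X ⟶ B ⊗ X), ptr X Y (f ▷ X ≫ g) = f ≫ ptr X Y g) ∧
  (∀ (A B B' : D) (f : B ⟶ B') (g : A ⊗ X ⟶ B ⊗ X), ptr X Y (g ≫ f ▷ X) = ptr X Y g ≫ f)

def S_slide : Prop := ∀ (D : Type u) [Category.{v} D] [MonoidalCategory D] [SymmetricCategory D]
  (X Y : D) [ExactPairing X Y] (A B : D) (g : A ⊗ X ⟶ B ⊗ X) (h : X ⟶ X),
  ptr X Y (g ≫ B ◁ h) = ptr X Y (A ◁ h ≫ g)

def S_tens : Prop := ∀ (D : Type u) [Category.{v} D] [MonoidalCategory D] [SymmetricCategory D]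
  (X₁ X₂ Y₁ Y₂ : D) [ExactPairing X₁ Y₁] [ExactPairing X₂ Y₂] (A B : D)
  (f : A ⊗ (X₁ ⊗ X₂) ⟶ B ⊗ (X₁ ⊗ X₂)),
  ptr (X₁ ⊗ X₂) (Y₂ ⊗ Y₁) f =
    ptr X₁ Y₁ (ptr (A := A ⊗ X₁) (B := B ⊗ X₁) X₂ Y₂
      ((α_ A X₁ X₂).hom ≫ f ≫ (α_ B X₁ X₂).inv))

def S_sup : Prop := ∀ (D : Type u) [Category.{v} D] [MonoidalCategory D] [SymmetricCategory D]
  (X Y : D) [ExactPairing X Y] (A B C : D) (f : A ⊗ X ⟶ B ⊗ X),
  ptr (A := C ⊗ A) (B := C ⊗ B) X Y ((α_ C A X).hom ≫ C ◁ f ≫ (α_ C B X).inv) = C ◁ ptr X Y f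

def S_yank : Prop := ∀ (D : Type u) [Category.{v} D] [MonoidalCategory D] [SymmetricCategory D]
  (X Y : D) [ExactPairing X Y], ptr X Y (β_ X X).hom = 𝟙 X

/-- scalar traces -/
def S_TT : Prop := ∀ (D : Type u) [Category.{v} D] [MonoidalCategory D] [SymmetricCategory D]
  (X Y : D) [ExactPairing X Y],
  (∀ f g : X ⟶ X, TT X Y (f ≫ g) = TT X Y (g ≫ f)) ∧
  (∀ (A : D) (f : X ⟶ X), ptr (A := A) (B := A) X Y (A ◁ f) =
    (ρ_ A).inv ≫ A ◁ TT X Y f ≫ (ρ_ A).hom) ∧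
  (∀ (A A' : D) [ExactPairing A A'] (G : A ⊗ X ⟶ A ⊗ X),
    TT (A ⊗ X) (Y ⊗ A') G = TT A A' (ptr X Y G))

/-! ### transpositions and symmetrizers -/

def S_sw : Prop := ∀ (D : Type u) [Category.{v} D] [MonoidalCategory D] [SymmetricCategory D]
  (M : D),
  (∀ n, sw M n ≫ sw M n = 𝟙 _) ∧
  (∀ n (x : pw M n ⟶ pw M n), sw M (n + 1) ≫ M ◁ (M ◁ x) = M ◁ (M ◁ x) ≫ sw M (n + 1)) ∧
  (∀ n, sw M (n + 1) ≫ M ◁ sw M n ≫ sw M (n + 1) = M ◁ sw M n ≫ sw M (n + 1) ≫ M ◁ sw M n) ∧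
  (∀ n (f : M ⟶ M), pm f (n + 1) ≫ sw M n = sw M n ≫ pm f (n + 1))

def S_sy : Prop := ∀ (F : Type w) [Field F] [CharZero F] (D : Type u) [Category.{v} D]
  [MonoidalCategory D] [SymmetricCategory D] [Preadditive D] [MonoidalPreadditive D]
  [Linear F D] [MonoidalLinear F D] (s : F) (_ : s * s = 1) (M : D),
  (∀ n, sy F s M n ≫ sy F s M n = sy F s M n) ∧
  (∀ n, M ◁ sy F s M n ≫ sy F s M (n + 1) = sy F s M (n + 1)) ∧
  (∀ n, sy F s M (n + 1) ≫ M ◁ sy F s M n = sy F s M (n + 1)) ∧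
  (∀ n, sw M n ≫ sy F s M (n + 1) = s • sy F s M (n + 1)) ∧
  (∀ n (f : M ⟶ M), pm f n ≫ sy F s M n = sy F s M n ≫ pm f n)

/-! ### the recursion -/

def S_rec : Prop := ∀ (F : Type w) [Field F] [CharZero F] (D : Type u) [Category.{v} D]
  [MonoidalCategory D] [SymmetricCategory D] [Preadditive D] [MonoidalPreadditive D]
  [Linear F D] [MonoidalLinear F D] (s : F) (_ : s * s = 1) (M M' : D) [ExactPairing M M']
  (g : M ⟶ M) (n : ℕ) (t : F) (_ : TT M M' (LL F s (M' := M') g n) = t • 𝟙 (𝟙_ D)),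
  ((n : F) + 2) • LL F s (M' := M') g (n + 1) =
    t • g + (s * ((n : F) + 1)) • (g ≫ LL F s (M' := M') g n)

/-! ### algebra -/

/-- the solution of the recursion -/
def S_solve : Prop := ∀ (F : Type w) [Field F] [CharZero F] (R : Type v) [Ring R] [Algebra F R]
  (t : R →ₗ[F] F) (s : F) (g : R) (L : ℕ → R) (_ : L 0 = g)
  (_ : ∀ n : ℕ, ((n : F) + 2) • L (n + 1) = t (L n) • g + (s * ((n : F) + 1)) • (g * L n))
  (e : ℕ → F) (_ : e 0 = 1) (_ : ∀ n, e (n + 1) = t (L n)),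
  (∀ n : ℕ, ((n : F) + 1) • L n =
    ∑ k ∈ Finset.range (n + 1), (s ^ k * e (n - k)) • g ^ (k + 1)) ∧
  (∀ n : ℕ, ((n : F) + 1) * e (n + 1) =
    ∑ k ∈ Finset.range (n + 1), s ^ k * e (n - k) * t (g ^ (k + 1)))

/-- even and odd traces: Newton -/
def S_newton : Prop := ∀ (F : Type w) [Field F] [CharZero F] (t e h : ℕ → F)
  (_ : e 0 = 1) (_ : h 0 = 1)
  (_ : ∀ n : ℕ, ((n : F) + 1) * e (n + 1) =
    ∑ k ∈ Finset.range (n + 1), (-1) ^ k * e (n - k) * t (k + 1))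
  (_ : ∀ n : ℕ, ((n : F) + 1) * h (n + 1) =
    ∑ k ∈ Finset.range (n + 1), h (n - k) * t (k + 1))
  (a b : ℕ) (_ : ∀ n, a < n → e n = 0) (_ : ∀ n, b < n → h n = 0), t 1 = 0

/-- Nagata-Higman -/
def S_NH : Prop := ∀ (F : Type w) [Field F] [CharZero F] (R : Type v) [Ring R] [Algebra F R]
  (A : Submodule F R) (_ : A * A ≤ A) (n : ℕ) (_ : ∀ x ∈ A, x ^ (n + 1) = 0),
  ∃ m : ℕ, A ^ m = ⊥

/-- nilpotence from the two corners -/
def S_corner : Prop := ∀ (F : Type w) [Field F] [CharZero F] (R : Type v) [Ring R] [Algebra F R]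
  (J : Submodule F R) (_ : ∀ r, ∀ x ∈ J, r * x ∈ J) (_ : ∀ r, ∀ x ∈ J, x * r ∈ J)
  (p q : R) (_ : p * p = p) (_ : q * q = q) (_ : p + q = 1) (a b : ℕ)
  (_ : ∀ x ∈ J, (p * x * p) ^ (a + 1) = 0) (_ : ∀ x ∈ J, (q * x * q) ^ (b + 1) = 0),
  ∃ m : ℕ, J ^ m = ⊥

/-- lifting of an idempotent modulo a nilpotent ideal inside a subring, and conjugacy -/
def S_lift : Prop := ∀ (R : Type v) [Ring R] (J : Set R)
  (_ : ∀ r, ∀ x ∈ J, r * x ∈ J) (_ : ∀ r, ∀ x ∈ J, x * r ∈ J) (_ : ∀ x ∈ J, ∀ y ∈ J, x + y ∈ J)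
  (_ : ∀ x ∈ J, IsNilpotent x)
  (R0 : Subring R) (e p : R) (_ : e ∈ R0) (_ : p * p = p) (_ : e - p ∈ J),
  ∃ p' ∈ R0, p' * p' = p' ∧ ∃ u y : R, u * y = 1 ∧ y * u = 1 ∧ p' = u * p * y

/-! ### automorphisms -/

/-- an additive tensor endofunctor which is the identity on objects and fixes the
structural isomorphisms -/
structure TAut (D : Type u) [Category.{v} D] [MonoidalCategory D] [SymmetricCategory D]
    [Preadditive D] where
  map : ∀ {A B : D}, (A ⟶ B) →+ (A ⟶ B)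
  map_id : ∀ A : D, map (𝟙 A) = 𝟙 A
  map_comp : ∀ {A B C : D} (f : A ⟶ B) (g : B ⟶ C), map (f ≫ g) = map f ≫ map g
  map_tensor : ∀ {A B A' B' : D} (f : A ⟶ B) (g : A' ⟶ B'), map (f ⊗ₘ g) = map f ⊗ₘ map g
  map_assoc : ∀ A B C : D, map (α_ A B C).hom = (α_ A B C).hom
  map_braid : ∀ A B : D, map (β_ A B).hom = (β_ A B).hom

/-- automorphisms fix the symmetrizers and commute with tensor powers -/
def S_aut : Prop := ∀ (F : Type w) [Field F] [CharZero F] (D : Type u) [Category.{v} D]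
  [MonoidalCategory D] [SymmetricCategory D] [Preadditive D] [MonoidalPreadditive D]
  [Linear F D] [MonoidalLinear F D] (Φ : TAut D) (M : D),
  (∀ n (f : M ⟶ M), Φ.map (pm f n) = pm (Φ.map f) n) ∧
  (∀ n, Φ.map (sy F 1 M n) = sy F 1 M n) ∧ (∀ n, Φ.map (sy F (-1) M n) = sy F (-1) M n)

/-! ### gradings -/

/-- a grading of the category by the integers, compatible with composition and tensor product,
all structural isomorphisms being of degree zero -/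
structure Grading (F : Type w) [Field F] (D : Type u) [Category.{v} D] [MonoidalCategory D]
    [SymmetricCategory D] [Preadditive D] [Linear F D] where
  G : ∀ A B : D, ℤ → Submodule F (A ⟶ B)
  internal : ∀ A B : D, DirectSum.IsInternal (G A B)
  id_mem : ∀ A : D, 𝟙 A ∈ G A A 0
  comp_mem : ∀ {A B C : D} {i j : ℤ} {f : A ⟶ B} {g : B ⟶ C}, f ∈ G A B i → g ∈ G B C j →
    f ≫ g ∈ G A C (i + j)
  tensor_mem : ∀ {A B A' B' : D} {i j : ℤ} {f : A ⟶ B} {g : A' ⟶ B'}, f ∈ G A B i →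
    g ∈ G A' B' j → f ⊗ₘ g ∈ G (A ⊗ A') (B ⊗ B') (i + j)
  assoc_mem : ∀ A B C : D, (α_ A B C).hom ∈ G _ _ 0
  braid_mem : ∀ A B : D, (β_ A B).hom ∈ G _ _ 0

/-- the hypothesis on the set `Γ` of automorphisms: every endomorphism `x` of `M` has an affine
combination (with rational coefficients) of images under `Γ` which is fixed by `Γ` -/
def Rey {D : Type u} [Category.{v} D] [MonoidalCategory D] [SymmetricCategory D]
    [Preadditive D] (F : Type w) [Field F] [Linear F D] (Γ : Set (TAut D)) (M : D) : Prop :=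
  ∀ x : M ⟶ M, ∃ (n : ℕ) (c : Fin n → F) (φ : Fin n → TAut D), (∀ i, φ i ∈ Γ) ∧
    ∑ i, c i = 1 ∧ ∀ ψ ∈ Γ, ψ.map (∑ i, c i • (φ i).map x) = ∑ i, c i • (φ i).map x

/-- a grading gives such a set of automorphisms, whose fixed morphisms are those of degree 0 -/
def S_grad : Prop := ∀ (F : Type w) [Field F] [CharZero F] (D : Type u) [Category.{v} D]
  [MonoidalCategory D] [SymmetricCategory D] [Preadditive D] [MonoidalPreadditive D]
  [Linear F D] [MonoidalLinear F D] (Gr : Grading F D),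
  ∃ Γ : Set (TAut D), (∀ M : D, Rey F Γ M) ∧
    ∀ (A B : D) (f : A ⟶ B), (∀ ψ ∈ Γ, ψ.map f = f) → f ∈ Gr.G A B 0

/-- Kimura decomposition of `M` by idempotents in the set `S`, with `Λ^{a+1} = 0` and
`Sym^{b+1} = 0` -/
def KDec (F : Type w) [Field F] {D : Type u} [Category.{v} D] [MonoidalCategory D]
    [SymmetricCategory D] [Preadditive D] [Linear F D] (M : D) (S : Set (M ⟶ M)) (a b : ℕ) :
    Prop :=
  ∃ p ∈ S, ∃ q ∈ S, p ≫ p = p ∧ q ≫ q = q ∧ p ≫ q = 0 ∧ q ≫ p = 0 ∧ p + q = 𝟙 M ∧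
    IsEven F p a ∧ IsOdd F q b

/-- main theorem -/
def S_main : Prop := ∀ (F : Type w) [Field F] [CharZero F] (D : Type u) [Category.{v} D]
  [MonoidalCategory D] [SymmetricCategory D] [Preadditive D] [MonoidalPreadditive D]
  [Linear F D] [MonoidalLinear F D]
  (_ : ∀ f : 𝟙_ D ⟶ 𝟙_ D, ∃ c : F, f = c • 𝟙 (𝟙_ D)) (_ : 𝟙 (𝟙_ D) ≠ 0)
  (M M' : D) [ExactPairing M M'] (Γ : Set (TAut D)) (_ : Rey F Γ M) (a b : ℕ)
  (_ : KDec F M Set.univ a b), KDec F M {f | ∀ ψ ∈ Γ, ψ.map f = f} a b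

end Pool.Agent.W544.KF
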