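import Pool.Agent.W544.KF.Main4
import Pool.Agent.W60.KF.Basic
import Pool.Agent.W701.KF.LIF
import Pool.Agent.W771.KF.SW
import Pool.Agent.W55.KF.Corner
import Pool.Agent.W166.KF.SUP
import Pool.Agent.W431.KF.TT
import Pool.Agent.W686.KF.GRA
import Pool.Agent.W392.KF.Sol
import Pool.Agent.W264.KF.NH
import Pool.Agent.W298.KF.SLI
import Pool.Agent.W298.KF.AUT
import Pool.Agent.W273.KF.REC
import Pool.Agent.W137.KF.Tens
import Pool.Agent.W306.KF.SY

/-! Project KF: the main theorem. -/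

open CategoryTheory MonoidalCategory

namespace Pool.Agent.W544.KF

universe w v u

theorem main_of2 (htens : S_tens.{v,u}) (hsy : S_sy.{w,v,u}) : S_main.{w,v,u} :=
  main_of Pool.Agent.W60.KF.basic hsy Pool.Agent.W431.KF.tt
    (Pool.Agent.W273.KF.rec Pool.Agent.W60.KF.basic Pool.Agent.W298.KF.slide htens
      W166.KF.SUP.sup W166.KF.SUP.yank Pool.Agent.W431.KF.tt
      Pool.Agent.W771.KF.sw_all hsy)
    Pool.Agent.W392.KF.solve Pool.Agent.W392.KF.newton
    (Pool.Agent.W55.KF.corner Pool.Agent.W264.KF.nh) Pool.Agent.W701.KF.LIF.lift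
    Pool.Agent.W298.KF.aut

theorem grad_of (hmain : S_main.{w,v,u}) (F : Type w) [Field F] [CharZero F] (D : Type u)
    [Category.{v} D] [MonoidalCategory D] [SymmetricCategory D] [Preadditive D]
    [MonoidalPreadditive D] [Linear F D] [MonoidalLinear F D]
    (hF : ∀ f : 𝟙_ D ⟶ 𝟙_ D, ∃ c : F, f = c • 𝟙 (𝟙_ D)) (hne : 𝟙 (𝟙_ D) ≠ 0)
    (M M' : D) [ExactPairing M M'] (Gr : Grading F D) (a b : ℕ)
    (h : KDec F M Set.univ a b) : KDec F M (Gr.G M M 0) a b := by
  obtain ⟨Γ, hR, hfix⟩ := Pool.Agent.W686.KF.GRA.grad F D Gr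
  obtain ⟨p, hp, q, hq, h'⟩ := hmain F D hF hne M M' Γ (hR M) a b h
  exact ⟨p, hfix M M p hp, q, hfix M M q hq, h'⟩

theorem main : S_main.{w,v,u} :=
  main_of2 Pool.Agent.W137.KF.tens (Pool.Agent.W306.KF.sy_all Pool.Agent.W771.KF.sw_all)

/-- the symmetrizers are idempotents which absorb the transpositions and commute with `f⊗...⊗f` -/
theorem sy_facts : S_sy.{w,v,u} := Pool.Agent.W306.KF.sy_all Pool.Agent.W771.KF.sw_all

end Pool.Agent.W544.KF
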