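import Pool.Agent.W544.KF.Defs2

/-! Assembly of project KF. -/

open CategoryTheory MonoidalCategory

namespace Pool.Agent.W544.KF

universe w v u

section
variable {D : Type u} [Category.{v} D] [MonoidalCategory D]

theorem pm_comp {M : D} (f g : M ⟶ M) : ∀ n, pm (f ≫ g) n = pm f n ≫ pm g n
  | 0 => rfl
  | n + 1 => by
    show (f ≫ g) ⊗ₘ pm (f ≫ g) n = (f ⊗ₘ pm f n) ≫ (g ⊗ₘ pm g n)
    rw [pm_comp f g n, tensorHom_comp_tensorHom]

theorem pm_id (M : D) : ∀ n, pm (𝟙 M) n = 𝟙 (pw M n)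
  | 0 => rfl
  | n + 1 => by
    show (𝟙 M) ⊗ₘ pm (𝟙 M) n = 𝟙 _
    rw [pm_id M n]
    exact id_tensorHom_id _ _

end

section
variable {F : Type w} [Field F] [CharZero F] {D : Type u} [Category.{v} D]
  [MonoidalCategory D] [SymmetricCategory D] [Preadditive D] [MonoidalPreadditive D]
  [Linear F D] [MonoidalLinear F D]

/-- vanishing for larger `n` -/
theorem van_of_absorb (hsy : S_sy.{w,v,u}) (s : F) (hs : s * s = 1) {M : D} (g : M ⟶ M) (a : ℕ)
    (h : pm g a ≫ sy F s M a = 0) : ∀ n, a ≤ n → pm g n ≫ sy F s M n = 0 := by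
  intro n hn
  induction n, hn using Nat.le_induction with
  | base => exact h
  | succ n hn ih =>
    obtain ⟨S, hS⟩ : ∃ S : (M ⊗ pw M n ⟶ M ⊗ pw M n), S = sy F s M (n + 1) := ⟨_, rfl⟩
    have e2 : M ◁ sy F s M n ≫ S = S := by
      subst hS
      exact (hsy F D s hs M).2.1 n
    have e3 : (g ⊗ₘ pm g n) ≫ S = 0 := by
      rw [← e2, ← Category.assoc, ← id_tensorHom, tensorHom_comp_tensorHom, Category.comp_id, ih,
        MonoidalCategory.tensorHom_def, MonoidalPreadditive.whiskerLeft_zero, Limits.comp_zero, Limits.zero_comp]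
    subst hS
    exact e3

omit [CharZero F] [MonoidalPreadditive D] [MonoidalLinear F D] in
theorem van_corner (s : F) {M : D} (g p : M ⟶ M) (hg : g ≫ p = g) (a : ℕ)
    (h : pm p a ≫ sy F s M a = 0) : pm g a ≫ sy F s M a = 0 := by
  rw [← hg, pm_comp, Category.assoc, h, Limits.comp_zero]

omit [CharZero F] [MonoidalLinear F D] in
theorem LL_zero_of (hb : S_basic.{v,u}) (s : F) {M M' : D} [ExactPairing M M'] (g : M ⟶ M) (n : ℕ)
    (h : pm g n ≫ sy F s M n = 0) : LL F s (M' := M') g n = 0 := by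
  cases n with
  | zero =>
    have h0 : pm g 0 ≫ sy F s M 0 = g := Category.comp_id g
    rw [h0] at h
    exact h
  | succ n =>
    let _ := pex M M' n
    have h0 : ptr (A := M) (B := M) (pw M n) (pd M' n) 0 = 0 := by
      have := (hb D (pw M n) (pd M' n)).1 M M 0 0
      rw [add_zero] at this
      exact left_eq_add.mp this
    have h1 : (pm g (n + 1) ≫ sy F s M (n + 1) : M ⊗ pw M n ⟶ M ⊗ pw M n) = 0 := h
    exact (congrArg (ptr (A := M) (B := M) (pw M n) (pd M' n)) h1).trans h0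

theorem TT_add {M M' : D} [ExactPairing M M'] (f g : M ⟶ M) :
    TT M M' (f + g) = TT M M' f + TT M M' g := by
  simp [TT, Preadditive.add_comp, Preadditive.comp_add]

omit [CharZero F] in
theorem TT_smul {M M' : D} [ExactPairing M M'] (c : F) (f : M ⟶ M) :
    TT M M' (c • f) = c • TT M M' f := by
  simp [TT]

/-- comparison of `g` with its partial traces -/
theorem LL_comm (hrec : S_rec.{w,v,u}) (s : F) (hs : s * s = 1) {M M' : D} [ExactPairing M M']
    (hF : ∀ f : 𝟙_ D ⟶ 𝟙_ D, ∃ c : F, f = c • 𝟙 (𝟙_ D)) (g : M ⟶ M) :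
    ∀ n, g ≫ LL F s (M' := M') g n = LL F s (M' := M') g n ≫ g := by
  intro n
  induction n with
  | zero => rfl
  | succ n ih =>
    obtain ⟨c, hc⟩ := hF (TT M M' (LL F s (M' := M') g n))
    have h := hrec F D s hs M M' g n c hc
    have hn : ((n : F) + 2) ≠ 0 := by exact_mod_cast Nat.succ_ne_zero (n + 1)
    have h2 : LL F s (M' := M') g (n + 1) = ((n : F) + 2)⁻¹ •
        (c • g + (s * ((n : F) + 1)) • (g ≫ LL F s (M' := M') g n)) := by
      rw [← h, smul_smul, inv_mul_cancel₀ hn, one_smul]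
    rw [h2]
    simp only [Linear.comp_smul, Linear.smul_comp, Preadditive.comp_add, Preadditive.add_comp]
    rw [Category.assoc, ← ih]

-- the trace as a linear form
omit [CharZero F] in
theorem exists_trace (hne : 𝟙 (𝟙_ D) ≠ 0) (M M' : D) [ExactPairing M M']
    (hF : ∀ f : 𝟙_ D ⟶ 𝟙_ D, ∃ c : F, f = c • 𝟙 (𝟙_ D)) :
    ∃ t : (End M) →ₗ[F] F, ∀ f : M ⟶ M, TT M M' f = t f • 𝟙 (𝟙_ D) := by
  choose c hc using fun f : M ⟶ M => hF (TT M M' f)
  have inj : ∀ x y : F, x • 𝟙 (𝟙_ D) = y • 𝟙 (𝟙_ D) → x = y := by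
    intro x y h
    by_contra hxy
    have : (x - y) • 𝟙 (𝟙_ D) = 0 := by rw [sub_smul, h, sub_self]
    rcases smul_eq_zero.mp this with h' | h'
    · exact hxy (sub_eq_zero.mp h')
    · exact hne h'
  refine ⟨{ toFun := c, map_add' := ?_, map_smul' := ?_ }, hc⟩
  · intro f g
    apply inj
    rw [← hc, add_smul, ← hc, ← hc]
    exact TT_add f g
  · intro r f
    apply inj
    rw [← hc, RingHom.id_apply, smul_eq_mul, mul_smul, ← hc]
    exact TT_smul r f

end

end Pool.Agent.W544.KF
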