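import Pool.Agent.W544.KF.Main

/-! Assembly of project KF, second part. -/

open CategoryTheory MonoidalCategory

namespace Pool.Agent.W544.KF

universe w v u

section algebra

variable {R : Type v} [Ring R] {F : Type w} [Field F] [CharZero F] [Algebra F R]

theorem mul_pow_shift (A B : R) : ∀ k : ℕ, (B * A) ^ (k + 1) = B * ((A * B) ^ k * A)
  | 0 => by simp
  | k + 1 => by
    rw [pow_succ, mul_pow_shift A B k, pow_succ (A * B) k]
    simp only [mul_assoc]

/-- traces of powers -/
theorem trace_pow_comm (t : R →ₗ[F] F) (ht : ∀ x y, t (x * y) = t (y * x)) (A B : R) (k : ℕ) :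
    t ((B * A) ^ (k + 1)) = t ((A * B) ^ (k + 1)) := by
  rw [mul_pow_shift A B k, ht, mul_assoc, ← pow_succ]

/-- the even-odd vanishing -/
theorem even_odd (hsolve : S_solve.{w,v}) (hnewton : S_newton.{w}) (t : R →ₗ[F] F)
    (ht : ∀ x y, t (x * y) = t (y * x)) (A B : R) (L L' : ℕ → R) (hL0 : L 0 = B * A)
    (hL : ∀ n : ℕ, ((n : F) + 2) • L (n + 1) =
      t (L n) • (B * A) + ((-1) * ((n : F) + 1)) • ((B * A) * L n))
    (hL0' : L' 0 = A * B)
    (hL' : ∀ n : ℕ, ((n : F) + 2) • L' (n + 1) =
      t (L' n) • (A * B) + (1 * ((n : F) + 1)) • ((A * B) * L' n))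
    (a b : ℕ) (ha : ∀ n, a ≤ n → L n = 0) (hb : ∀ n, b ≤ n → L' n = 0) : t (B * A) = 0 := by
  let e : ℕ → F := fun n => Nat.casesOn n 1 (fun n => t (L n))
  let h : ℕ → F := fun n => Nat.casesOn n 1 (fun n => t (L' n))
  have h1 := (hsolve F R t (-1) (B * A) L hL0 hL e rfl (fun n => rfl)).2
  have h2 := (hsolve F R t 1 (A * B) L' hL0' hL' h rfl (fun n => rfl)).2
  have h3 := hnewton F (fun k => t ((B * A) ^ k)) e h rfl rfl (fun n => by
      simpa using h1 n) (fun n => by
      simp only [trace_pow_comm t ht A B]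
      simpa using h2 n) a b (fun n hn => by
      cases n with
      | zero => omega
      | succ n => show t (L n) = 0; rw [ha n (by omega), map_zero]) (fun n hn => by
      cases n with
      | zero => omega
      | succ n => show t (L' n) = 0; rw [hb n (by omega), map_zero])
  simpa using h3

/-- numerically trivial elements of a corner are nilpotent -/
theorem nil_of_trivial (hsolve : S_solve.{w,v}) (t : R →ₗ[F] F) (s : F) (hs : s * s = 1)
    (g : R) (L : ℕ → R) (hL0 : L 0 = g)
    (hL : ∀ n : ℕ, ((n : F) + 2) • L (n + 1) = t (L n) • g + (s * ((n : F) + 1)) • (g * L n))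
    (hg : ∀ k : ℕ, t (g ^ (k + 1)) = 0) (a : ℕ) (ha : L a = 0) : g ^ (a + 1) = 0 := by
  let e : ℕ → F := fun n => Nat.casesOn n 1 (fun n => t (L n))
  obtain ⟨h1, h2⟩ := hsolve F R t s g L hL0 hL e rfl (fun n => rfl)
  have he : ∀ n, e (n + 1) = 0 := by
    intro n
    have h3 := h2 n
    simp only [hg, mul_zero, Finset.sum_const_zero] at h3
    rcases mul_eq_zero.mp h3 with h4 | h4
    · exact absurd h4 (by exact_mod_cast Nat.succ_ne_zero n)
    · exact h4
  have h4 := h1 a
  rw [ha, smul_zero, Finset.sum_range_succ, Finset.sum_eq_zero] at h4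
  · rw [Nat.sub_self, zero_add] at h4
    have h5 : s ^ a * e 0 ≠ 0 := by
      have : s ≠ 0 := by
        rintro rfl
        simp at hs
      show s ^ a * 1 ≠ 0
      rw [mul_one]
      exact pow_ne_zero _ this
    rcases smul_eq_zero.mp h4.symm with h6 | h6
    · exact absurd h6 h5
    · exact h6
  · intro k hk
    rw [Finset.mem_range] at hk
    obtain ⟨m, hm⟩ : ∃ m, a - k = m + 1 := ⟨a - k - 1, by omega⟩
    rw [hm, he, mul_zero, zero_smul]

end algebra

end Pool.Agent.W544.KF
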