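import Pool.Agent.W544.KF.Main2

/-! Assembly of project KF, third part. -/

open CategoryTheory MonoidalCategory

namespace Pool.Agent.W544.KF

universe w v u

section
variable {F : Type w} [Field F] [CharZero F] {D : Type u} [Category.{v} D]
  [MonoidalCategory D] [SymmetricCategory D] [Preadditive D] [MonoidalPreadditive D]
  [Linear F D] [MonoidalLinear F D]

/-- a morphism as an element of the endomorphism ring -/
def asE {M : D} (f : M ⟶ M) : End M := f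

variable (F) in
/-- the partial traces in `End M` -/
def LE (s : F) {M : D} (M' : D) [ExactPairing M M'] (g : End M) (n : ℕ) : End M :=
  LL F s (M' := M') g n

/-- the recursion in `End M` -/
theorem LL_rec (hrec : S_rec.{w,v,u}) (s : F) (hs : s * s = 1) {M M' : D} [ExactPairing M M']
    (hF : ∀ f : 𝟙_ D ⟶ 𝟙_ D, ∃ c : F, f = c • 𝟙 (𝟙_ D)) (t : End M →ₗ[F] F)
    (ht : ∀ f : M ⟶ M, TT M M' f = t f • 𝟙 (𝟙_ D)) (g : End M) (n : ℕ) :
    ((n : F) + 2) • LE F s M' g (n + 1) =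
      t (LE F s M' g n) • g + (s * ((n : F) + 1)) • (g * LE F s M' g n) := by
  have h := hrec F D s hs M M' g n _ (ht _)
  have h2 : g * LE F s M' g n = g ≫ LL F s (M' := M') g n :=
    (LL_comm hrec s hs hF g n).symm
  rw [h2]
  exact h

theorem trace_comm (htt : S_TT.{v,u}) (hne : 𝟙 (𝟙_ D) ≠ 0) {M M' : D} [ExactPairing M M']
    (t : End M →ₗ[F] F) (ht : ∀ f : M ⟶ M, TT M M' f = t f • 𝟙 (𝟙_ D)) (x y : End M) :
    t (x * y) = t (y * x) := by
  have h := (htt D M M').1 y x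
  rw [ht, ht] at h
  by_contra hxy
  have : (t (x * y) - t (y * x)) • 𝟙 (𝟙_ D) = 0 := by
    rw [sub_smul]
    exact sub_eq_zero.mpr h
  rcases smul_eq_zero.mp this with h' | h'
  · exact hxy (sub_eq_zero.mp h')
  · exact hne h'

/-- morphisms between an even and an odd object have trace zero -/
theorem k2 (hb : S_basic.{v,u}) (hsy : S_sy.{w,v,u}) (htt : S_TT.{v,u}) (hrec : S_rec.{w,v,u})
    (hsolve : S_solve.{w,v}) (hnewton : S_newton.{w}) {M M' : D} [ExactPairing M M']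
    (hF : ∀ f : 𝟙_ D ⟶ 𝟙_ D, ∃ c : F, f = c • 𝟙 (𝟙_ D)) (hne : 𝟙 (𝟙_ D) ≠ 0)
    (t : End M →ₗ[F] F) (ht : ∀ f : M ⟶ M, TT M M' f = t f • 𝟙 (𝟙_ D))
    (p q : M ⟶ M) (hp : p ≫ p = p) (hq : q ≫ q = q) (a b : ℕ) (hpe : IsEven F p a)
    (hqo : IsOdd F q b) (f h : M ⟶ M) : t (p ≫ f ≫ q ≫ h) = 0 := by
  have htc := trace_comm (F := F) htt hne t ht
  let A : End M := p ≫ f ≫ q
  let B : End M := q ≫ h ≫ p
  have hx : (B * A : End M) ≫ p = (B * A : End M) := by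
    show ((p ≫ f ≫ q) ≫ (q ≫ h ≫ p)) ≫ p = (p ≫ f ≫ q) ≫ (q ≫ h ≫ p)
    simp only [Category.assoc, hp]
  have hy : (A * B : End M) ≫ q = (A * B : End M) := by
    show ((q ≫ h ≫ p) ≫ (p ≫ f ≫ q)) ≫ q = (q ≫ h ≫ p) ≫ (p ≫ f ≫ q)
    simp only [Category.assoc, hq]
  have hm : (-1 : F) * (-1) = 1 := by norm_num
  have h1 : (1 : F) * 1 = 1 := one_mul 1
  have key := even_odd hsolve hnewton t htc A B (LE F (-1) M' (B * A)) (LE F 1 M' (A * B)) rfl
    (fun n => LL_rec hrec (-1) hm hF t ht _ n) rfl (fun n => LL_rec hrec 1 h1 hF t ht _ n) a b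
    (fun n hn => LL_zero_of hb (-1) _ n (van_of_absorb hsy (-1) hm _ a
      (van_corner (-1) _ p hx a hpe) n hn))
    (fun n hn => LL_zero_of hb 1 _ n (van_of_absorb hsy 1 h1 _ b
      (van_corner 1 _ q hy b hqo) n hn))
  have h2 : (B * A : End M) = asE p * asE (p ≫ f ≫ q ≫ h) := by
    show (p ≫ f ≫ q) ≫ (q ≫ h ≫ p) = (p ≫ f ≫ q ≫ h) ≫ p
    simp only [Category.assoc]
    rw [← Category.assoc q q, hq]
  rw [h2, htc] at key
  have h3 : asE (p ≫ f ≫ q ≫ h) * asE p = asE (p ≫ f ≫ q ≫ h) := by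
    show p ≫ (p ≫ f ≫ q ≫ h) = p ≫ f ≫ q ≫ h
    rw [← Category.assoc, hp]
  rw [h3] at key
  exact key

/-- numerically trivial endomorphisms of an even or odd corner are nilpotent -/
theorem k1 (hb : S_basic.{v,u}) (hrec : S_rec.{w,v,u})
    (hsolve : S_solve.{w,v}) {M M' : D} [ExactPairing M M']
    (hF : ∀ f : 𝟙_ D ⟶ 𝟙_ D, ∃ c : F, f = c • 𝟙 (𝟙_ D))
    (t : End M →ₗ[F] F) (ht : ∀ f : M ⟶ M, TT M M' f = t f • 𝟙 (𝟙_ D)) (s : F) (hs : s * s = 1)
    (p : M ⟶ M) (a : ℕ) (hpe : pm p a ≫ sy F s M a = 0) (g : End M) (hg : g ≫ p = g)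
    (hJ : ∀ h : End M, t (g * h) = 0) : g ^ (a + 1) = 0 :=
  nil_of_trivial hsolve t s hs g (LE F s M' g) rfl
    (fun n => LL_rec hrec s hs hF t ht g n) (fun k => by rw [pow_succ']; exact hJ _) a
    (LL_zero_of hb s g a (van_corner s g p hg a hpe))

end

end Pool.Agent.W544.KF
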