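import Pool.Agent.W544.KF.Main3

/-! Assembly of project KF, main theorem from the parts. -/

open CategoryTheory MonoidalCategory

namespace Pool.Agent.W544.KF

universe w v u

theorem main_of (hb : S_basic.{v,u}) (hsy : S_sy.{w,v,u}) (htt : S_TT.{v,u})
    (hrec : S_rec.{w,v,u}) (hsolve : S_solve.{w,v}) (hnewton : S_newton.{w})
    (hcor : S_corner.{w,v}) (hlift : S_lift.{v}) (haut : S_aut.{w,v,u}) :
    S_main.{w,v,u} := by
  intro F _ _ D _ _ _ _ _ _ _ hF hne M M' _ Γ hR a b hK
  obtain ⟨p, -, q, -, hp, hq, hpq, hqp, hsum, hpe, hqo⟩ := hK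
  obtain ⟨t, ht⟩ := exists_trace (F := F) hne M M' hF
  have htc := trace_comm (F := F) htt hne t ht
  have hm : (-1 : F) * (-1) = 1 := by norm_num
  have h1 : (1 : F) * 1 = 1 := one_mul 1
  -- the ideal of numerically trivial endomorphisms
  let J : Submodule F (End M) :=
    { carrier := {x | ∀ y : End M, t (x * y) = 0}
      add_mem' := by
        intro x x' hx hx' y
        rw [add_mul, map_add, hx y, hx' y, add_zero]
      zero_mem' := by
        intro y
        rw [zero_mul, map_zero]
      smul_mem' := by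
        intro c x hx y
        rw [smul_mul_assoc, map_smul, hx y, smul_zero] }
  have hJr : ∀ r : End M, ∀ x ∈ J, x * r ∈ J := by
    intro r x hx y
    rw [mul_assoc]
    exact hx _
  have hJl : ∀ r : End M, ∀ x ∈ J, r * x ∈ J := by
    intro r x hx y
    rw [mul_assoc, htc, mul_assoc]
    exact hx _
  let P : End M := p
  let Q : End M := q
  have hPP : P * P = P := hp
  have hQQ : Q * Q = Q := hq
  have hPQ1 : P + Q = 1 := hsum
  -- nilpotence
  obtain ⟨m, hm0⟩ := hcor F (End M) J hJl hJr P Q hPP hQQ hPQ1 a b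
    (by
      intro x hx
      refine k1 hb hrec hsolve hF t ht (-1) hm p a hpe (P * x * P) ?_ ?_
      · show P * (P * x * P) = P * x * P
        rw [← mul_assoc, ← mul_assoc, hPP]
      · exact hJr P _ (hJl P x hx))
    (by
      intro x hx
      refine k1 hb hrec hsolve hF t ht 1 h1 q b hqo (Q * x * Q) ?_ ?_
      · show Q * (Q * x * Q) = Q * x * Q
        rw [← mul_assoc, ← mul_assoc, hQQ]
      · exact hJr Q _ (hJl Q x hx))
  have hnil : ∀ x ∈ (J : Set (End M)), IsNilpotent x := by
    intro x hx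
    refine ⟨m, ?_⟩
    have := Submodule.pow_mem_pow J hx m
    rw [hm0] at this
    exact (Submodule.mem_bot F).mp this
  -- images of the decomposition under `Γ`
  have hdiff : ∀ φ : TAut D, asE (φ.map p) - P ∈ J := by
    intro φ
    have hp' : φ.map p ≫ φ.map p = φ.map p := by rw [← φ.map_comp, hp]
    have hq' : φ.map q ≫ φ.map q = φ.map q := by rw [← φ.map_comp, hq]
    have hpe' : IsEven F (φ.map p) a := by
      show pm (φ.map p) a ≫ sy F (-1) M a = 0
      rw [← (haut F D φ M).1 a p, ← (haut F D φ M).2.2 a, ← φ.map_comp]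
      have : pm p a ≫ sy F (-1) M a = 0 := hpe
      rw [this, map_zero]
    have hqo' : IsOdd F (φ.map q) b := by
      show pm (φ.map q) b ≫ sy F 1 M b = 0
      rw [← (haut F D φ M).1 b q, ← (haut F D φ M).2.1 b, ← φ.map_comp]
      have : pm q b ≫ sy F 1 M b = 0 := hqo
      rw [this, map_zero]
    have hsum' : asE (φ.map p) + asE (φ.map q) = 1 := by
      show φ.map p + φ.map q = 𝟙 M
      rw [← map_add, hsum, φ.map_id]
    -- `φ p` followed by `q`
    have e1 : Q * asE (φ.map p) ∈ J := by
      intro y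
      have := k2 hb hsy htt hrec hsolve hnewton hF hne t ht (φ.map p) q hp' hq a b hpe' hqo
        (𝟙 M) y
      rw [Category.id_comp] at this
      rw [htc]
      have h3 : y * (Q * asE (φ.map p)) = asE (φ.map p ≫ q ≫ y) := by
        show (φ.map p ≫ q) ≫ y = φ.map p ≫ q ≫ y
        rw [Category.assoc]
      rw [h3]
      exact this
    have e2 : P * asE (φ.map q) ∈ J := by
      intro y
      have := k2 hb hsy htt hrec hsolve hnewton hF hne t ht p (φ.map q) hp hq' a b hpe hqo'
        y (𝟙 M)
      rw [Category.comp_id] at this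
      have h4 : asE (p ≫ y ≫ φ.map q) = asE (φ.map q) * (y * P) := by
        show p ≫ y ≫ φ.map q = (p ≫ y) ≫ φ.map q
        rw [Category.assoc]
      calc t (P * asE (φ.map q) * y) = t (P * (asE (φ.map q) * y)) := by rw [mul_assoc]
        _ = t ((asE (φ.map q) * y) * P) := htc _ _
        _ = t (asE (φ.map q) * (y * P)) := by rw [mul_assoc]
        _ = 0 := by rw [← h4]; exact this
    have e3 : asE (φ.map p) - P = Q * asE (φ.map p) - P * asE (φ.map q) := by
      have h3 : asE (φ.map p) = P * asE (φ.map p) + Q * asE (φ.map p) := by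
        rw [← add_mul, hPQ1, one_mul]
      have h4 : P = P * asE (φ.map p) + P * asE (φ.map q) := by
        rw [← mul_add, hsum', mul_one]
      calc asE (φ.map p) - P = (P * asE (φ.map p) + Q * asE (φ.map p)) -
          (P * asE (φ.map p) + P * asE (φ.map q)) := by rw [← h3, ← h4]
        _ = _ := by abel
    rw [e3]
    exact J.sub_mem e1 e2
  -- the invariant approximation
  obtain ⟨n, c, φ, hφ, hc, hinv⟩ := hR p
  let e : End M := ∑ i, c i • asE ((φ i).map p)
  have he : e - P ∈ J := by
    have : e - P = ∑ i, c i • (asE ((φ i).map p) - P) := by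
      simp only [smul_sub, Finset.sum_sub_distrib]
      rw [← Finset.sum_smul, hc, one_smul]
    rw [this]
    exact J.sum_mem fun i _ => J.smul_mem _ (hdiff (φ i))
  let R0 : Subring (End M) :=
    { carrier := {f | ∀ ψ ∈ Γ, ψ.map f = f}
      mul_mem' := by
        intro x y hx hy ψ hψ
        show ψ.map (y ≫ x) = y ≫ x
        rw [ψ.map_comp, hx ψ hψ, hy ψ hψ]
      one_mem' := by
        intro ψ _
        exact ψ.map_id M
      add_mem' := by
        intro x y hx hy ψ hψ
        show ψ.map (x + y : M ⟶ M) = (x + y : M ⟶ M)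
        rw [map_add, hx ψ hψ, hy ψ hψ]
      zero_mem' := by
        intro ψ _
        exact map_zero _
      neg_mem' := by
        intro x hx ψ hψ
        show ψ.map (-x : M ⟶ M) = (-x : M ⟶ M)
        rw [map_neg, hx ψ hψ] }
  obtain ⟨p', hp'0, hp'p', U, Y, hUY, hYU, hconj⟩ := hlift (End M) (J : Set (End M))
    hJl hJr (fun x hx y hy => J.add_mem hx hy) hnil R0 e P (fun ψ hψ => hinv ψ hψ) hPP he
  have hconjq : 1 - p' = U * Q * Y := by
    have : Q = 1 - P := eq_sub_of_add_eq' hPQ1
    rw [this, hconj, mul_sub, sub_mul, mul_one, hUY]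
  -- even and odd
  have hev : ∀ (s : F) (_ : s * s = 1) (r r' : M ⟶ M) (k : ℕ) (_ : asE r' = U * asE r * Y)
      (_ : pm r k ≫ sy F s M k = 0), pm r' k ≫ sy F s M k = 0 := by
    intro s hs r r' k hr' hr
    have h3 : r' = (Y : M ⟶ M) ≫ (r ≫ (U : M ⟶ M)) := hr'
    rw [h3, pm_comp, pm_comp, Category.assoc, Category.assoc,
      (hsy F D s hs M).2.2.2.2 k (U : M ⟶ M), ← Category.assoc (pm r k), hr,
      Limits.zero_comp, Limits.comp_zero]
  refine ⟨p', hp'0, (1 - p' : End M), R0.sub_mem R0.one_mem hp'0, hp'p', ?_, ?_, ?_, ?_, ?_, ?_⟩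
  · show (1 - p') * (1 - p') = (1 - p' : End M)
    rw [mul_sub, sub_mul, sub_mul, hp'p']
    simp
  · show (1 - p') * p' = (0 : End M)
    rw [sub_mul, hp'p', one_mul, sub_self]
  · show p' * (1 - p') = (0 : End M)
    rw [mul_sub, hp'p', mul_one, sub_self]
  · show p' + (1 - p') = (1 : End M)
    abel
  · exact hev (-1) hm p p' a hconj hpe
  · exact hev 1 h1 q (1 - p' : End M) b hconjq hqo

end Pool.Agent.W544.KF
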