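import Pool.Agent.W544.KF.SDefs

/-! Subtask KG-BIG. -/

set_option autoImplicit false

open CategoryTheory MonoidalCategory

namespace Pool.Agent.W544.KGBig

open Pool.Agent.W544.KF

universe w v u

theorem rec_all : S_rec.{w,v,u} :=
  Pool.Agent.W273.KF.rec Pool.Agent.W60.KF.basic Pool.Agent.W298.KF.slide
    Pool.Agent.W137.KF.tens W166.KF.SUP.sup W166.KF.SUP.yank Pool.Agent.W431.KF.tt
    Pool.Agent.W771.KF.sw_all sy_facts

section

variable {F : Type w} [Field F] [CharZero F] {D : Type u} [Category.{v} D]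
  [MonoidalCategory D] [SymmetricCategory D] [Preadditive D] [MonoidalPreadditive D]
  [Linear F D] [MonoidalLinear F D]

theorem tl (s : F) {N N' : D} [ExactPairing N N'] (h : N ⟶ N) : ∀ m : ℕ,
    (letI := pex N N' m; TT (pw N m) (pd N' m) (pm h m ≫ sy F s N m)) =
      TT N N' (LL F s (M' := N') h m)
  | 0 => by
    exact congrArg (TT N N') (Category.comp_id h)
  | m + 1 => by
    let _ := pex N N' m
    exact (Pool.Agent.W431.KF.tt D (pw N m) (pd N' m)).2.2 N N' (pm h (m + 1) ≫ sy F s N (m + 1))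

end

theorem newt {R : Type v} [Ring R] {F : Type w} [Field F] [CharZero F] [Algebra F R]
    (t : R →ₗ[F] F) (g : R) (L L' : ℕ → R) (hL0 : L 0 = g)
    (hL : ∀ n : ℕ, ((n : F) + 2) • L (n + 1) =
      t (L n) • g + ((-1) * ((n : F) + 1)) • (g * L n))
    (hL0' : L' 0 = g)
    (hL' : ∀ n : ℕ, ((n : F) + 2) • L' (n + 1) =
      t (L' n) • g + (1 * ((n : F) + 1)) • (g * L' n))
    (a : ℕ) (ha : ∀ n, a ≤ n → t (L n) = 0) (hb : ∀ n, a ≤ n → t (L' n) = 0) : t g = 0 := by
  let e : ℕ → F := fun n => Nat.casesOn n 1 (fun n => t (L n))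
  let h : ℕ → F := fun n => Nat.casesOn n 1 (fun n => t (L' n))
  have h1 := (Pool.Agent.W392.KF.solve F R t (-1) g L hL0 hL e rfl (fun n => rfl)).2
  have h2 := (Pool.Agent.W392.KF.solve F R t 1 g L' hL0' hL' h rfl (fun n => rfl)).2
  have h3 := Pool.Agent.W392.KF.newton F (fun k => t (g ^ k)) e h rfl rfl (fun n => by
      simpa using h1 n) (fun n => by
      simpa using h2 n) a a (fun n hn => by
      cases n with
      | zero => omega
      | succ n => exact ha n (by omega)) (fun n hn => by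
      cases n with
      | zero => omega
      | succ n => exact hb n (by omega))
  simpa using h3

theorem big : S_big.{w,v,u} := by
  intro F _ _ D _ _ _ _ _ _ _ hF hne N N' _ h hT n
  obtain ⟨t, ht⟩ := exists_trace (F := F) hne N N' hF
  by_contra hcon
  have hz : ∀ s : F, (s = 1 ∨ s = -1) → ∀ m, n ≤ m → t (LE F s N' h m) = 0 := by
    intro s hs m hm
    by_contra hne'
    refine hcon ⟨m, s, t (LE F s N' h m), hm, hs, hne', ?_⟩
    rw [tl s h m]
    exact ht _
  have hm : (-1 : F) * (-1) = 1 := by norm_num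
  have key := newt t (asE h) (LE F (-1) N' h) (LE F 1 N' h) rfl
    (fun n => LL_rec rec_all (-1) hm hF t ht _ n) rfl
    (fun n => LL_rec rec_all 1 (one_mul 1) hF t ht _ n) n
    (hz (-1) (Or.inr rfl)) (hz 1 (Or.inl rfl))
  apply hT
  rw [ht h]
  have : t h = 0 := key
  rw [this, zero_smul]

end Pool.Agent.W544.KGBig
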