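import Pool.Agent.W544.KF.SDefs

open CategoryTheory MonoidalCategory

namespace Pool.Agent.W544.KF

universe w v u

theorem swi_sy (F : Type w) [Field F] [CharZero F] (D : Type u) [Category.{v} D]
    [MonoidalCategory D] [SymmetricCategory D] [Preadditive D] [MonoidalPreadditive D]
    [Linear F D] [MonoidalLinear F D] (s : F) (hs : s * s = 1) (N : D) :
    ∀ (n : ℕ) (i : Fin n), swi N n i ≫ sy F s N n = s • sy F s N n
  | 0, i => i.elim0
  | n + 1, i => by
    refine Fin.cases ?_ (fun j => ?_) i
    · exact (sy_facts F D s hs N).2.2.2.1 n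
    · obtain ⟨S, hS⟩ : ∃ S : (N ⊗ pw N n ⟶ N ⊗ pw N n), S = sy F s N (n + 1) := ⟨_, rfl⟩
      have e2 : N ◁ sy F s N n ≫ S = S := by
        subst hS
        exact (sy_facts F D s hs N).2.1 n
      have e3 : N ◁ swi N n j ≫ S = s • S := by
        rw [← e2, ← Category.assoc, ← MonoidalCategory.whiskerLeft_comp,
          swi_sy F D s hs N n j, MonoidalLinear.whiskerLeft_smul, Linear.smul_comp]
      subst hS
      exact e3

theorem abs_own : S_abs.{w,v,u} := by
  intro F _ _ D _ _ _ _ _ _ _ s hs N n w
  induction w with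
  | nil =>
    show 𝟙 _ ≫ sy F s N n = _
    rw [Category.id_comp, List.length_nil, pow_zero, one_smul]
  | cons i w ih =>
    show (swi N n i ≫ act N n w) ≫ sy F s N n = _
    rw [Category.assoc, ih, Linear.comp_smul, swi_sy F D s hs N n i, smul_smul, List.length_cons,
      pow_succ]

theorem ptens_own : S_ptens.{w,v,u} := by
  intro F _ D _ _ _ _ _ _ _ A X Y _ x y c hc
  rw [MonoidalCategory.tensorHom_def, (Pool.Agent.W60.KF.basic D X Y).2.1,
    (Pool.Agent.W431.KF.tt D X Y).2.1, hc, MonoidalLinear.whiskerLeft_smul,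
    MonoidalCategory.whiskerLeft_id, Linear.smul_comp, Linear.comp_smul, Linear.comp_smul,
    Category.id_comp, Iso.inv_hom_id, Category.comp_id]

end Pool.Agent.W544.KF
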