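import Pool.Agent.W544.KF.Final

/-! Schur finiteness of tensor products: definitions and statements of project KG. -/

open CategoryTheory MonoidalCategory

namespace Pool.Agent.W544.KF

universe w v u

section defs

variable {D : Type u} [Category.{v} D] [MonoidalCategory D] [SymmetricCategory D]

/-- the transposition of the factors `i` and `i+1` of `M^{⊗ (n+1)}` -/
def swi (M : D) : ∀ n, Fin n → (pw M n ⟶ pw M n)
  | 0, i => i.elim0
  | n + 1, i => Fin.cases (sw M n) (fun j => M ◁ swi M n j) i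

/-- a product of transpositions, acting on `M^{⊗ (n+1)}` -/
def act (M : D) (n : ℕ) : List (Fin n) → (pw M n ⟶ pw M n)
  | [] => 𝟙 _
  | i :: w => swi M n i ≫ act M n w

/-- the corresponding permutation -/
def prm (n : ℕ) : List (Fin n) → Equiv.Perm (Fin (n + 1))
  | [] => 1
  | i :: w => Equiv.swap i.castSucc i.succ * prm n w

/-- the linear combination `c` of products of transpositions is not zero in the group algebra
of the symmetric group -/
def NZ {F : Type w} [Field F] (n : ℕ) (c : List (Fin n) →₀ F) : Prop :=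
  ∃ σ : Equiv.Perm (Fin (n + 1)), (∑ w ∈ c.support with prm n w = σ, c w) ≠ 0

/-- Schur finiteness: some element `≠ 0` of the group algebra of the symmetric group acts as zero
on a tensor power of `M` -/
def SchurFinite (F : Type w) [Field F] [Preadditive D] [Linear F D] (M : D) : Prop :=
  ∃ (n : ℕ) (c : List (Fin n) →₀ F), NZ n c ∧ (∑ w ∈ c.support, c w • act M n w) = 0

end defs

/-- absorption of products of transpositions -/
def S_abs : Prop := ∀ (F : Type w) [Field F] [CharZero F] (D : Type u) [Category.{v} D]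
  [MonoidalCategory D] [SymmetricCategory D] [Preadditive D] [MonoidalPreadditive D]
  [Linear F D] [MonoidalLinear F D] (s : F) (_ : s * s = 1) (N : D) (n : ℕ) (w : List (Fin n)),
  act N n w ≫ sy F s N n = s ^ w.length • sy F s N n

/-- there are symmetric or alternating powers of arbitrarily high degree in which the trace of
an endomorphism with nonzero trace does not vanish -/
def S_big : Prop := ∀ (F : Type w) [Field F] [CharZero F] (D : Type u) [Category.{v} D]
  [MonoidalCategory D] [SymmetricCategory D] [Preadditive D] [MonoidalPreadditive D]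
  [Linear F D] [MonoidalLinear F D]
  (_ : ∀ f : 𝟙_ D ⟶ 𝟙_ D, ∃ c : F, f = c • 𝟙 (𝟙_ D)) (_ : 𝟙 (𝟙_ D) ≠ 0)
  (N N' : D) [ExactPairing N N'] (h : N ⟶ N) (_ : TT N N' h ≠ 0) (n : ℕ),
  ∃ (m : ℕ) (s : F) (c : F), n ≤ m ∧ (s = 1 ∨ s = -1) ∧ c ≠ 0 ∧
    (letI := pex N N' m; TT (pw N m) (pd N' m) (pm h m ≫ sy F s N m)) = c • 𝟙 (𝟙_ D)

/-- partial trace of a tensor product of morphisms -/
def S_ptens : Prop := ∀ (F : Type w) [Field F] (D : Type u) [Category.{v} D]
  [MonoidalCategory D] [SymmetricCategory D] [Preadditive D] [MonoidalPreadditive D]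
  [Linear F D] [MonoidalLinear F D] (A X Y : D) [ExactPairing X Y] (x : A ⟶ A) (y : X ⟶ X)
  (c : F) (_ : TT X Y y = c • 𝟙 (𝟙_ D)), ptr X Y (x ⊗ₘ y) = c • x

/-- tensor powers of a tensor product -/
def S_shuffle : Prop := ∀ (D : Type u) [Category.{v} D] [MonoidalCategory D]
  [SymmetricCategory D] (M N : D) (n : ℕ),
  ∃ θ : pw (M ⊗ N) n ≅ pw M n ⊗ pw N n, ∀ i : Fin n,
    swi (M ⊗ N) n i ≫ θ.hom = θ.hom ≫ (swi M n i ⊗ₘ swi N n i)

/-- raising the degree -/
def S_raise : Prop := ∀ (F : Type w) [Field F] (D : Type u) [Category.{v} D]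
  [MonoidalCategory D] [SymmetricCategory D] [Preadditive D] [MonoidalPreadditive D]
  [Linear F D] [MonoidalLinear F D] (M : D) (n : ℕ) (c : List (Fin n) →₀ F) (_ : NZ n c)
  (_ : (∑ w ∈ c.support, c w • act M n w) = 0) (m : ℕ) (_ : n ≤ m),
  ∃ c' : List (Fin m) →₀ F, NZ m c' ∧ (∑ w ∈ c'.support, c' w • act M m w) = 0

/-- twisting with the sign -/
def S_sign : Prop := ∀ (F : Type w) [Field F] (n : ℕ) (c : List (Fin n) →₀ F) (_ : NZ n c)
  (s : F) (_ : s = 1 ∨ s = -1) (c' : List (Fin n) →₀ F) (_ : ∀ w, c' w = s ^ w.length * c w),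
  NZ n c'

end Pool.Agent.W544.KF
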