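import Pool.Agent.W544.KF.SMain
import Pool.Agent.W544.KF.SAbs
import Pool.Agent.W544.KF.PBig
import Pool.Agent.W544.KF.PRai
import Pool.Agent.W544.KF.PShu

/-! Schur finiteness of tensor products: the theorem. -/

open CategoryTheory MonoidalCategory

namespace Pool.Agent.W544.KF

universe w v u

theorem division (F : Type w) [Field F] [CharZero F] (D : Type u) [Category.{v} D]
    [MonoidalCategory D] [SymmetricCategory D] [Preadditive D] [MonoidalPreadditive D]
    [Linear F D] [MonoidalLinear F D]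
    (hF : ∀ f : 𝟙_ D ⟶ 𝟙_ D, ∃ c : F, f = c • 𝟙 (𝟙_ D)) (hne : 𝟙 (𝟙_ D) ≠ 0)
    (M N N' : D) [ExactPairing N N'] (h : N ⟶ N) (hT : TT N N' h ≠ 0)
    (hS : SchurFinite F (M ⊗ N)) : SchurFinite F M :=
  div_of abs_own Pool.Agent.W544.KGBig.big ptens_own Pool.Agent.W544.KGShu.shuffle
    Pool.Agent.W544.KGRai.raise Pool.Agent.W544.KGRai.sign F D hF hne M N N' h hT hS

end Pool.Agent.W544.KF
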