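import Pool.Agent.W544.KF.SDefs

/-! Schur finiteness of tensor products: assembly. -/

open CategoryTheory MonoidalCategory

namespace Pool.Agent.W544.KF

universe w v u

section
variable {D : Type u} [Category.{v} D] [MonoidalCategory D] [SymmetricCategory D]

theorem act_shuffle (M N : D) (n : ℕ) (θ : pw (M ⊗ N) n ≅ pw M n ⊗ pw N n)
    (hθ : ∀ i : Fin n, swi (M ⊗ N) n i ≫ θ.hom = θ.hom ≫ (swi M n i ⊗ₘ swi N n i)) :
    ∀ w : List (Fin n), act (M ⊗ N) n w ≫ θ.hom = θ.hom ≫ (act M n w ⊗ₘ act N n w)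
  | [] => by
    show 𝟙 _ ≫ θ.hom = θ.hom ≫ (𝟙 _ ⊗ₘ 𝟙 _)
    rw [id_tensorHom_id, Category.id_comp, Category.comp_id]
  | i :: w => by
    show (swi (M ⊗ N) n i ≫ act (M ⊗ N) n w) ≫ θ.hom =
      θ.hom ≫ ((swi M n i ≫ act M n w) ⊗ₘ (swi N n i ≫ act N n w))
    rw [Category.assoc, act_shuffle M N n θ hθ w, ← Category.assoc, hθ i, Category.assoc,
      tensorHom_comp_tensorHom]

end

theorem div_of (habs : S_abs.{w,v,u}) (hbig : S_big.{w,v,u}) (hpt : S_ptens.{w,v,u})
    (hsh : S_shuffle.{v,u}) (hraise : S_raise.{w,v,u}) (hsign : S_sign.{w})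
    (F : Type w) [Field F] [CharZero F] (D : Type u) [Category.{v} D]
    [MonoidalCategory D] [SymmetricCategory D] [Preadditive D] [MonoidalPreadditive D]
    [Linear F D] [MonoidalLinear F D]
    (hF : ∀ f : 𝟙_ D ⟶ 𝟙_ D, ∃ c : F, f = c • 𝟙 (𝟙_ D)) (hne : 𝟙 (𝟙_ D) ≠ 0)
    (M N N' : D) [ExactPairing N N'] (h : N ⟶ N) (hT : TT N N' h ≠ 0)
    (hS : SchurFinite F (M ⊗ N)) : SchurFinite F M := by
  obtain ⟨n, c0, hc0, hz0⟩ := hS
  obtain ⟨m, s, r, hnm, hs, hr, htr⟩ := hbig F D hF hne N N' h hT n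
  obtain ⟨c, hc, hz⟩ := hraise F D (M ⊗ N) n c0 hc0 hz0 m hnm
  have hss : s * s = 1 := by rcases hs with rfl | rfl <;> norm_num
  have hs0 : s ≠ 0 := by
    rintro rfl
    simp at hss
  obtain ⟨θ, hθ⟩ := hsh D M N m
  -- the diagonal action vanishes
  have h1 : ∑ w ∈ c.support, c w • (act M m w ⊗ₘ act N m w) = 0 := by
    have h2 : θ.hom ≫ (∑ w ∈ c.support, c w • (act M m w ⊗ₘ act N m w)) = 0 := by
      rw [Preadditive.comp_sum]
      have h3 : ∀ w ∈ c.support, θ.hom ≫ (c w • (act M m w ⊗ₘ act N m w)) =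
          (c w • act (M ⊗ N) m w) ≫ θ.hom := by
        intro w _
        rw [Linear.comp_smul, Linear.smul_comp, act_shuffle M N m θ hθ w]
      rw [Finset.sum_congr rfl h3, ← Preadditive.sum_comp, hz, Limits.zero_comp]
    have h4 := congrArg (fun x => θ.inv ≫ x) h2
    simpa using h4
  -- multiply by the (anti)symmetrizer in the second factor
  let y : pw N m ⟶ pw N m := pm h m ≫ sy F s N m
  have h5 : ∑ w ∈ c.support, (s ^ w.length * c w) • (act M m w ⊗ₘ y) = 0 := by
    have h6 : (𝟙 (pw M m) ⊗ₘ pm h m) ≫ (∑ w ∈ c.support, c w • (act M m w ⊗ₘ act N m w)) ≫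
        (𝟙 (pw M m) ⊗ₘ sy F s N m) = 0 := by
      rw [h1, Limits.zero_comp, Limits.comp_zero]
    rw [Preadditive.sum_comp, Preadditive.comp_sum] at h6
    rw [← h6]
    refine Finset.sum_congr rfl fun w _ => ?_
    rw [Linear.smul_comp, Linear.comp_smul, tensorHom_comp_tensorHom, tensorHom_comp_tensorHom,
      Category.comp_id, Category.id_comp, habs F D s hss N m w, Linear.comp_smul]
    have h7 : act M m w ⊗ₘ (s ^ w.length • (pm h m ≫ sy F s N m)) =
        s ^ w.length • (act M m w ⊗ₘ y) := by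
      rw [MonoidalCategory.tensorHom_def, MonoidalCategory.tensorHom_def,
        MonoidalLinear.whiskerLeft_smul, Linear.comp_smul]
    rw [h7, smul_smul, mul_comm]
  -- the partial trace
  let _ := pex N N' m
  have hb := Pool.Agent.W60.KF.basic D (pw N m) (pd N' m)
  have h8 : ∑ w ∈ c.support, (s ^ w.length * c w) • act M m w = 0 := by
    let T : (pw M m ⊗ pw N m ⟶ pw M m ⊗ pw N m) →+ (pw M m ⟶ pw M m) :=
      { toFun := ptr (pw N m) (pd N' m)
        map_zero' := by
          have := hb.1 (pw M m) (pw M m) 0 0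
          rw [add_zero] at this
          exact left_eq_add.mp this
        map_add' := hb.1 _ _ }
    have hTs : ∀ (k : F) (x : pw M m ⊗ pw N m ⟶ pw M m ⊗ pw N m), T (k • x) = k • T x := by
      intro k x
      have h9 : k • x = (k • 𝟙 (pw M m)) ▷ pw N m ≫ x := by
        rw [MonoidalLinear.smul_whiskerRight, id_whiskerRight, Linear.smul_comp, Category.id_comp]
      have h10 := hb.2.1 (pw M m) (pw M m) (pw M m) (k • 𝟙 (pw M m)) x
      rw [h9]
      refine h10.trans ?_
      rw [Linear.smul_comp, Category.id_comp]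
      rfl
    have h11 := congrArg T h5
    rw [map_sum, map_zero] at h11
    have h12 : ∀ w ∈ c.support, T ((s ^ w.length * c w) • (act M m w ⊗ₘ y)) =
        r • ((s ^ w.length * c w) • act M m w) := by
      intro w _
      rw [hTs]
      have : T (act M m w ⊗ₘ y) = r • act M m w :=
        hpt F D (pw M m) (pw N m) (pd N' m) (act M m w) y r htr
      rw [this, smul_comm]
    rw [Finset.sum_congr rfl h12, ← Finset.smul_sum] at h11
    rcases smul_eq_zero.mp h11 with h13 | h13
    · exact absurd h13 hr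
    · exact h13
  -- the twisted combination
  let c' : List (Fin m) →₀ F := Finsupp.onFinset c.support (fun w => s ^ w.length * c w)
    (by
      intro w hw
      rw [Finsupp.mem_support_iff]
      intro h0
      apply hw
      rw [h0, mul_zero])
  have hc' : ∀ w, c' w = s ^ w.length * c w := fun w => rfl
  have hsupp : c'.support = c.support := by
    ext w
    rw [Finsupp.mem_support_iff, Finsupp.mem_support_iff, hc']
    constructor
    · intro h0 h1'
      exact h0 (by rw [h1', mul_zero])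
    · intro h0
      exact mul_ne_zero (pow_ne_zero _ hs0) h0
  refine ⟨m, c', hsign F m c hc s hs c' hc', ?_⟩
  rw [hsupp]
  exact h8

end Pool.Agent.W544.KF
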